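import Pool.Agent.ZPK.StmtsA
import Pool.Agent.Helper3_ZP3.PPT0

/-!
Squad ZPK, row PUO: points of a plane curve near infinity in the first coordinate, for every choice
of the root `t` of `1 / x`.
-/

set_option autoImplicit false

namespace Pool.Agent.ZPK.H92

open Polynomial Pool.Agent.ZPT Pool.Agent.ZP3 Pool.Agent.ZP3.H3

noncomputable section

/-- The case of positive degree in the outer variable. -/
theorem puo1 (pum : PUMStmt) (fgs : FGSStmt) (evf : EVFStmt) (ura : URAStmt)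
    (G : Qb[X][X]) (hG : G ≠ 0) (hd : 1 ≤ G.natDegree) :
    ∃ (m L : ℕ) (e : Fin L → ℕ)
    (f : Fin L → PowerSeries Qb) (p₀ : ℕ), 1 ≤ m ∧ (∀ l, FG (f l)) ∧
    (∀ l, 1 ≤ e l → PowerSeries.constantCoeff (f l) ≠ 0) ∧ ∀ p : ℕ, p.Prime → p₀ ≤ p →
    ∀ (K : Type) [NormedField K] [CharZero K] [IsUltrametricDist K] [CompleteSpace K], Ext p K →
    ∀ (ι : Qb →+* K) (t x : K), 0 < ‖t‖ → ‖t‖ < 1 → evQ ι G (1 / t ^ m) x = 0 →
      ∃ l, x = evK ι (f l) t / t ^ e l := by
  classical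
  obtain ⟨R, hR⟩ := fg_ring fgs
  obtain ⟨_, _, fgX, fgInv, fgExp, fgDiv⟩ := fgs
  set d := G.natDegree with hdd
  set D : ℕ := (Finset.range (d + 1)).sup (fun i => (G.coeff i).natDegree) with hD
  have hDle : ∀ i ∈ Finset.range (d + 1), (G.coeff i).natDegree ≤ D := fun i hi =>
    Finset.le_sup (f := fun i => (G.coeff i).natDegree) hi
  set gt : ℕ → Qb[X] := fun i => reflect D (G.coeff i) with hgt
  have hgtd : gt d ≠ 0 := by
    intro h
    have h' : reflect D (G.coeff d) = 0 := h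
    rw [reflect_eq_zero_iff] at h'
    exact hG (leadingCoeff_eq_zero.1 h')
  set cq : ℕ → PowerSeries Qb := fun i =>
    (gt i : PowerSeries Qb) * (gt d : PowerSeries Qb) ^ (d - 1 - i) with hcq
  set F : (PowerSeries Qb)[X] := X ^ d + ∑ i ∈ Finset.range d, C (cq i) * X ^ i with hF
  have hdeg : (∑ i ∈ Finset.range d, C (cq i) * X ^ i : (PowerSeries Qb)[X]).degree < (d : ℕ) := by
    refine lt_of_le_of_lt (degree_sum_le _ _) ?_
    rw [Finset.sup_lt_iff (WithBot.bot_lt_coe _)]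
    intro i hi
    refine lt_of_le_of_lt (degree_C_mul_X_pow_le _ _) ?_
    exact_mod_cast Finset.mem_range.1 hi
  have hFm : F.Monic := monic_X_pow_add hdeg
  have hcfR : ∀ i, cq i ∈ R := fun i =>
    R.mul_mem ((hR _).2 (fg_poly _)) (R.pow_mem ((hR _).2 (fg_poly _)) _)
  have hFfg : ∀ i, FG (F.coeff i) := by
    intro i
    rw [← hR, hF, coeff_add, coeff_X_pow, finsetSum_coeff]
    refine R.add_mem ?_ (R.sum_mem fun j _ => ?_)
    · split_ifs
      · exact R.one_mem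
      · exact R.zero_mem
    · rw [coeff_C_mul_X_pow]
      split_ifs
      · exact hcfR j
      · exact R.zero_mem
  obtain ⟨m, hm, s, hs, hfac⟩ := pum F hFm hFfg
  -- the leading coefficient
  set gd : PowerSeries Qb := PowerSeries.expand m hm (gt d : PowerSeries Qb) with hgd
  have hgd0 : gd ≠ 0 := by
    intro h
    apply hgtd
    have h1 : (gt d : PowerSeries Qb) = 0 := by
      ext n
      have h2 := PowerSeries.coeff_expand_mul m hm (gt d : PowerSeries Qb) n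
      rw [← hgd, h, map_zero] at h2
      rw [← h2, map_zero]
    exact Polynomial.coe_eq_zero_iff.1 h1
  set k : ℕ := gd.order.toNat with hk
  set gs : PowerSeries Qb := gd.divXPowOrder with hgs
  have hgsm : PowerSeries.X ^ k * gs = gd := PowerSeries.X_pow_order_mul_divXPowOrder
  have hgs0 : PowerSeries.constantCoeff gs ≠ 0 := by
    rw [hgs, Ne, PowerSeries.constantCoeff_divXPowOrder_eq_zero_iff]
    exact hgd0
  have fgd : FG gd := fgExp m hm _ (fg_poly _)
  have fgs' : FG gs := fgDiv k gs (by rw [hgsm]; exact fgd)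
  have fgsi : FG gs⁻¹ := fgInv gs fgs' hgs0
  have fst : ∀ ρ ∈ s, FG ρ.divXPowOrder := fun ρ hρ => fgDiv ρ.order.toNat _ (by
    rw [PowerSeries.X_pow_order_mul_divXPowOrder]; exact hs ρ hρ)
  set T0 : Finset (PowerSeries Qb) :=
    ((Finset.range (d + 1)).image (fun i => (gt i : PowerSeries Qb))) ∪ {gs, gs⁻¹} ∪ s.toFinset ∪
      s.toFinset.image (fun ρ => ρ.divXPowOrder) with hT0
  have hT0fg : ∀ f ∈ T0, FG f := by
    intro f hf
    simp only [hT0, Finset.mem_union, Finset.mem_image, Finset.mem_insert, Finset.mem_singleton,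
      Multiset.mem_toFinset] at hf
    rcases hf with ((⟨i, _, rfl⟩ | (rfl | rfl)) | hf) | ⟨ρ, hρ, rfl⟩
    · exact fg_poly _
    · exact fgs'
    · exact fgsi
    · exact hs f hf
    · exact fst ρ hρ
  obtain ⟨S, hS⟩ := common T0 hT0fg
  have mgt : ∀ i ∈ Finset.range (d + 1), (gt i : PowerSeries Qb) ∈ PS S := fun i hi =>
    hS _ (by
      simp only [hT0, Finset.mem_union]
      exact Or.inl (Or.inl (Or.inl (Finset.mem_image_of_mem _ hi))))
  have mgs : gs ∈ PS S := hS _ (by simp [hT0])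
  have mgsi : gs⁻¹ ∈ PS S := hS _ (by simp [hT0])
  have ms : ∀ ρ ∈ s, ρ ∈ PS S := fun ρ hρ => hS _ (by simp [hT0, hρ])
  have mst : ∀ ρ ∈ s, ρ.divXPowOrder ∈ PS S := fun ρ hρ => hS _ (by
    simp only [hT0, Finset.mem_union]
    exact Or.inr (Finset.mem_image_of_mem _ (Multiset.mem_toFinset.2 hρ)))
  obtain ⟨p₀, hp₀⟩ := ura (S ∪ T0.image (fun f => PowerSeries.constantCoeff f))
  have hst0 : ∀ ρ : PowerSeries Qb, ρ ≠ 0 → PowerSeries.constantCoeff ρ.divXPowOrder ≠ 0 := by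
    intro ρ hρ
    rw [Ne, PowerSeries.constantCoeff_divXPowOrder_eq_zero_iff]
    exact hρ
  set l0 : List (PowerSeries Qb) := s.toList with hl0
  have hl0m : ∀ ρ, ρ ∈ l0 ↔ ρ ∈ s := by
    intro ρ
    rw [hl0, Multiset.mem_toList]
  have hget : ∀ i : Fin l0.length, l0.get i ∈ s := fun i => (hl0m _).1 (List.get_mem l0 i)
  obtain ⟨ef, hef⟩ : ∃ ef : PowerSeries Qb → ℕ, ∀ ρ, ef ρ = if ρ = 0 then 0 else
      k - ρ.order.toNat := ⟨_, fun _ => rfl⟩
  obtain ⟨ff, hff⟩ : ∃ ff : PowerSeries Qb → PowerSeries Qb, ∀ ρ, ff ρ =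
      PowerSeries.X ^ (ρ.order.toNat - k) * ρ.divXPowOrder * gs⁻¹ := ⟨_, fun _ => rfl⟩
  refine ⟨m, l0.length, fun i => ef (l0.get i), fun i => ff (l0.get i), p₀,
    Nat.one_le_iff_ne_zero.2 hm, ?_, ?_, ?_⟩
  · intro i
    show FG (ff (l0.get i))
    rw [hff, ← hR]
    exact R.mul_mem (R.mul_mem (R.pow_mem ((hR _).2 fgX) _) ((hR _).2 (fst _ (hget i))))
      ((hR _).2 fgsi)
  · intro i hi
    show PowerSeries.constantCoeff (ff (l0.get i)) ≠ 0
    have hi' : 1 ≤ ef (l0.get i) := hi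
    rw [hef] at hi'
    by_cases h0 : l0.get i = 0
    · rw [if_pos h0] at hi'
      omega
    · rw [if_neg h0] at hi'
      have hz : (l0.get i).order.toNat - k = 0 := by omega
      rw [hff, hz, pow_zero, one_mul, map_mul, PowerSeries.constantCoeff_inv]
      exact mul_ne_zero (hst0 _ h0) (inv_ne_zero hgs0)
  intro p hp hpp K _ _ _ _ hE ι t x₁ htpos ht1 h0
  have hle : ∀ g ∈ S, ‖ι g‖ ≤ 1 := fun g hg =>
    ((hp₀ p hp hpp K hE ι g (Finset.mem_union_left _ hg)).1).1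
  have hcc : ∀ f ∈ T0, PowerSeries.constantCoeff f ≠ 0 →
      ‖ι (PowerSeries.constantCoeff f)‖ = 1 := fun f hf h =>
    (hp₀ p hp hpp K hE ι _ (Finset.mem_union_right _ (Finset.mem_image_of_mem _ hf))).2 h
  have mT0gs : gs ∈ T0 := by simp [hT0]
  have ngs : ‖ι (PowerSeries.constantCoeff gs)‖ = 1 := hcc gs mT0gs hgs0
  have ht0 : t ≠ 0 := norm_pos_iff.1 htpos
  have htm0 : t ^ m ≠ 0 := pow_ne_zero _ ht0
  obtain ⟨x₂, hx₂⟩ : ∃ x₂ : K, x₂ = 1 / t ^ m := ⟨_, rfl⟩
  rw [← hx₂] at h0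
  have hx2 : x₂ ≠ 0 := by
    rw [hx₂]; exact one_div_ne_zero htm0
  have ht : t ^ m = x₂⁻¹ := by
    rw [hx₂, one_div, inv_inv]
  obtain ⟨φ, hφ⟩ := exists_phi evf K ι S hle t ht1
  -- values of the coefficients
  set γ : ℕ → K := fun i => (gt i).eval₂ ι x₂⁻¹ with hγ
  have mE : ∀ i ∈ Finset.range (d + 1),
      PowerSeries.expand m hm (gt i : PowerSeries Qb) ∈ PS S := fun i hi =>
    expand_mem_PS m hm (mgt i hi)
  have hval : ∀ i (hi : i ∈ Finset.range (d + 1)),
      φ ⟨PowerSeries.expand m hm (gt i : PowerSeries Qb), mE i hi⟩ = γ i := by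
    intro i hi
    rw [hφ]
    show evK ι (PowerSeries.expand m hm (gt i : PowerSeries Qb)) t = γ i
    rw [(evf K ι S hle t ht1 _ _ (mgt i hi) (mgt i hi)).2.2.2.2.2.1 m hm, evK_poly, ht]
  have hdm : d ∈ Finset.range (d + 1) := Finset.self_mem_range_succ d
  -- the polynomial over the subring
  set G1 : ℕ → PS S := fun i => if hi : i ∈ Finset.range (d + 1) then
    ⟨PowerSeries.expand m hm (gt i : PowerSeries Qb), mE i hi⟩ else 0 with hG1
  have hG1v : ∀ i ∈ Finset.range (d + 1), φ (G1 i) = γ i := by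
    intro i hi
    rw [hG1]
    simp only [dif_pos hi]
    exact hval i hi
  have hG1c : ∀ i ∈ Finset.range (d + 1),
      ((G1 i : PS S) : PowerSeries Qb) = PowerSeries.expand m hm (gt i : PowerSeries Qb) := by
    intro i hi
    rw [hG1]
    simp only [dif_pos hi]
  set F1 : (PS S)[X] := X ^ d + ∑ i ∈ Finset.range d, C (G1 i * G1 d ^ (d - 1 - i)) * X ^ i
    with hF1
  have hF1m : F1.map (PS S).subtype =
      F.map (PowerSeries.expand (R := Qb) m hm : PowerSeries Qb →+* PowerSeries Qb) := by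
    rw [hF1, hF]
    simp only [Polynomial.map_add, Polynomial.map_pow, Polynomial.map_X, Polynomial.map_sum,
      Polynomial.map_mul, Polynomial.map_C]
    congr 1
    refine Finset.sum_congr rfl fun i hi => ?_
    have hi' : i ∈ Finset.range (d + 1) := by
      have := Finset.mem_range.1 hi
      exact Finset.mem_range.2 (by omega)
    congr 2
    rw [map_mul, map_pow]
    show ((G1 i : PS S) : PowerSeries Qb) * ((G1 d : PS S) : PowerSeries Qb) ^ (d - 1 - i) =
      PowerSeries.expand m hm (cq i)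
    rw [hG1c i hi', hG1c d hdm, hcq, map_mul, map_pow]
  lift s to Multiset (PS S) using ms with s' hs'
  have hF1f : F1 = (s'.map fun ρ => (X - C ρ : (PS S)[X])).prod := by
    apply Polynomial.map_injective (PS S).subtype (PS S).subtype_injective
    rw [hF1m, hfac, Polynomial.map_multiset_prod, Multiset.map_map, Multiset.map_map]
    congr 1
    refine Multiset.map_congr rfl fun ρ _ => ?_
    simp
  -- evaluate
  have hroot : F1.eval₂ φ (γ d * x₁) = 0 := by
    rw [hF1]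
    simp only [Polynomial.eval₂_add, Polynomial.eval₂_pow, Polynomial.eval₂_X,
      Polynomial.eval₂_finsetSum, Polynomial.eval₂_mul, Polynomial.eval₂_C, map_mul, map_pow]
    have e1 : ∑ i ∈ Finset.range d, φ (G1 i) * φ (G1 d) ^ (d - 1 - i) * (γ d * x₁) ^ i =
        ∑ i ∈ Finset.range d, γ i * γ d ^ (d - 1 - i) * (γ d * x₁) ^ i := by
      refine Finset.sum_congr rfl fun i hi => ?_
      have hi' : i ∈ Finset.range (d + 1) := by
        have := Finset.mem_range.1 hi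
        exact Finset.mem_range.2 (by omega)
      rw [hG1v i hi', hG1v d hdm]
    rw [e1, alg d hd γ x₁]
    have e2 : (∑ i ∈ Finset.range (d + 1), γ i * x₁ ^ i) * x₂ ^ D = evQ ι G x₂ x₁ := by
      rw [evQ_sum, ← hdd, Finset.sum_mul]
      refine Finset.sum_congr rfl fun i hi => ?_
      rw [← reflect_eval ι D (G.coeff i) (hDle i hi) x₂ hx2]
      simp only [hγ, hgt]
      ring
    have e3 : ∑ i ∈ Finset.range (d + 1), γ i * x₁ ^ i = 0 := by
      have : (∑ i ∈ Finset.range (d + 1), γ i * x₁ ^ i) * x₂ ^ D = 0 := by rw [e2, h0]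
      exact (mul_eq_zero.1 this).resolve_right (pow_ne_zero _ hx2)
    rw [e3, mul_zero]
  rw [hF1f, Polynomial.eval₂_multiset_prod, Multiset.map_map, Multiset.prod_eq_zero_iff,
    Multiset.mem_map] at hroot
  obtain ⟨ρ, hρ, hρ0⟩ := hroot
  have hW : γ d * x₁ = φ ρ := by
    have : (X - C ρ : (PS S)[X]).eval₂ φ (γ d * x₁) = 0 := hρ0
    rw [Polynomial.eval₂_sub, Polynomial.eval₂_X, Polynomial.eval₂_C, sub_eq_zero] at this
    exact this
  -- the value of a series with unit constant term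
  have hunit : ∀ f : PS S, ‖ι (PowerSeries.constantCoeff f.1)‖ = 1 → ‖φ f‖ = 1 := by
    intro f hf
    have h1 := (evf K ι S hle t ht1 f.1 f.1 f.2 f.2).2.2.2.2.2.2.1
    rw [← hφ] at h1
    have h2 : ‖φ f - ι (PowerSeries.constantCoeff f.1)‖ <
        ‖ι (PowerSeries.constantCoeff f.1)‖ := by rw [hf]; linarith
    have h3 : φ f = (φ f - ι (PowerSeries.constantCoeff f.1)) +
        ι (PowerSeries.constantCoeff f.1) := by ring
    rw [h3, IsUltrametricDist.norm_add_eq_max_of_norm_ne_norm h2.ne, max_eq_right h2.le, hf]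
  set Xs : PS S := ⟨PowerSeries.X, X_mem_PS S⟩ with hXs
  have hφX : φ Xs = t := by
    rw [hφ]
    exact (evf K ι S hle t ht1 0 0 (PS S).zero_mem (PS S).zero_mem).2.2.2.2.1
  have hγd : γ d = t ^ k * φ ⟨gs, mgs⟩ := by
    rw [← hG1v d hdm, ← hφX, ← map_pow, ← map_mul]
    congr 1
    apply Subtype.ext
    rw [hG1c d hdm]
    show gd = PowerSeries.X ^ k * gs
    exact hgsm.symm
  have nφgs : ‖φ ⟨gs, mgs⟩‖ = 1 := hunit _ ngs
  have hφgs0 : φ ⟨gs, mgs⟩ ≠ 0 := by
    intro h; rw [h, norm_zero] at nφgs; norm_num at nφgs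
  have hρs : (ρ : PowerSeries Qb) ∈ s'.map (Subtype.val : PS S → PowerSeries Qb) :=
    Multiset.mem_map_of_mem _ hρ
  have mst' : (ρ : PowerSeries Qb).divXPowOrder ∈ PS S := mst _ hρs
  set j : ℕ := (ρ : PowerSeries Qb).order.toNat with hj
  have hφρ : φ ρ = t ^ j * φ ⟨(ρ : PowerSeries Qb).divXPowOrder, mst'⟩ := by
    rw [← hφX, ← map_pow, ← map_mul]
    congr 1
    apply Subtype.ext
    show (ρ : PowerSeries Qb) = PowerSeries.X ^ j * (ρ : PowerSeries Qb).divXPowOrder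
    exact PowerSeries.X_pow_order_mul_divXPowOrder.symm
  have hρl : (ρ : PowerSeries Qb) ∈ l0 := (hl0m _).2 hρs
  obtain ⟨i, hi⟩ := List.mem_iff_get.1 hρl
  refine ⟨i, ?_⟩
  show x₁ = evK ι (ff (l0.get i)) t / t ^ (ef (l0.get i))
  rw [hi]
  have hA : evK ι (ff ρ) t = t ^ (j - k) *
      φ ⟨(ρ : PowerSeries Qb).divXPowOrder, mst'⟩ * φ ⟨gs⁻¹, mgsi⟩ := by
    have hA1 : t ^ (j - k) = φ (Xs ^ (j - k)) := by rw [map_pow, hφX]
    rw [hA1, ← map_mul, ← map_mul, hφ, hff]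
    rfl
  have hinv : φ ⟨gs⁻¹, mgsi⟩ * φ ⟨gs, mgs⟩ = 1 := by
    rw [← map_mul, ← map_one φ]
    congr 1
    apply Subtype.ext
    show gs⁻¹ * gs = 1
    exact PowerSeries.inv_mul_cancel gs hgs0
  have hW' : t ^ k * φ ⟨gs, mgs⟩ * x₁ =
      t ^ j * φ ⟨(ρ : PowerSeries Qb).divXPowOrder, mst'⟩ := by rw [← hγd, hW, hφρ]
  rw [hA]
  by_cases hρz : (ρ : PowerSeries Qb) = 0
  · have h' : ρ = 0 := Subtype.ext hρz
    rw [h', map_zero] at hW
    have hx1 : x₁ = 0 := by
      rcases mul_eq_zero.1 hW with h4 | h4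
      · exfalso
        rw [hγd] at h4
        rcases mul_eq_zero.1 h4 with h5 | h5
        · exact pow_ne_zero k ht0 h5
        · exact hφgs0 h5
      · exact h4
    have h6 : φ ⟨(ρ : PowerSeries Qb).divXPowOrder, mst'⟩ = 0 := by
      have h7 : φ ρ = 0 := by rw [h', map_zero]
      rw [hφρ] at h7
      exact (mul_eq_zero.1 h7).resolve_left (pow_ne_zero _ ht0)
    rw [h6, hx1]
    simp
  · have he : ef ρ = k - j := by rw [hef, if_neg hρz]
    rw [he, eq_div_iff (pow_ne_zero _ ht0)]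
    have hsk : t ^ k = t ^ (k - j) * t ^ (min j k) := by
      rw [← pow_add]; congr 1; omega
    have hsj : t ^ j = t ^ (j - k) * t ^ (min j k) := by
      rw [← pow_add]; congr 1; omega
    have htj : t ^ (min j k) ≠ 0 := pow_ne_zero _ ht0
    have h9 : t ^ (min j k) * (t ^ (k - j) * φ ⟨gs, mgs⟩ * x₁) =
        t ^ (min j k) * (t ^ (j - k) * φ ⟨(ρ : PowerSeries Qb).divXPowOrder, mst'⟩) := by
      calc t ^ (min j k) * (t ^ (k - j) * φ ⟨gs, mgs⟩ * x₁)
          = (t ^ (k - j) * t ^ (min j k)) * φ ⟨gs, mgs⟩ * x₁ := by ring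
        _ = t ^ j * φ ⟨(ρ : PowerSeries Qb).divXPowOrder, mst'⟩ := by rw [← hsk, hW']
        _ = (t ^ (j - k) * t ^ (min j k)) * φ ⟨(ρ : PowerSeries Qb).divXPowOrder, mst'⟩ := by
          rw [← hsj]
        _ = _ := by ring
    have h10 := mul_left_cancel₀ htj h9
    rw [← h10]
    calc x₁ * t ^ (k - j) = (φ ⟨gs⁻¹, mgsi⟩ * φ ⟨gs, mgs⟩) * (t ^ (k - j) * x₁) := by
          rw [hinv]; ring
      _ = t ^ (k - j) * φ ⟨gs, mgs⟩ * x₁ * φ ⟨gs⁻¹, mgsi⟩ := by ring

theorem puo (pum : PUMStmt) (fgs : FGSStmt) (evf : EVFStmt) (ura : URAStmt) (_ : URRStmt) :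
    PuoStmt := by
  intro G hG
  have hne : G * X ≠ 0 := mul_ne_zero hG X_ne_zero
  have hd : 1 ≤ (G * X).natDegree := by
    rw [natDegree_mul_X hG]; omega
  obtain ⟨m, L, e, f, p₀, h1, h2, h3, h4⟩ := puo1 pum fgs evf ura (G * X) hne hd
  refine ⟨m, L, e, f, p₀, h1, h2, h3, ?_⟩
  intro p hp hpp K _ _ _ _ hE ι t x ht ht1 h0
  refine h4 p hp hpp K hE ι t x ht ht1 ?_
  have : evQ ι (G * X) (1 / t ^ m) x = evQ ι G (1 / t ^ m) x * x := by
    unfold evQ
    rw [Polynomial.map_mul, Polynomial.map_X, Polynomial.eval_mul, Polynomial.eval_X]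
  rw [this, h0, zero_mul]

end

end Pool.Agent.ZPK.H92
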