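import Pool.Agent.ZPK.StmtsR2
import Pool.Agent.Helper26_ZPK.GTF

/-!
Squad ZPK, row UPA: the upper end.
-/

set_option autoImplicit false

namespace Pool.Agent.ZPK.H92

open Polynomial Pool.Agent.ZPT Pool.Agent.ZP3 Pool.Agent.ZP3.H51

noncomputable section

theorem upa (thb : THBStmt) (_ : LgbStmt) (lgn : LgnStmt) (cri : CriStmt) (gps : GpsStmt) :
    UpaStmt := by
  intro p hp hp11 K _ _ _ _ _ hE Log hL A B e' y r T ρ hB hBA hcop he1 hep hy hy1 hyA hr hρ0 hρ
    H1 H2 H3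
  obtain ⟨-, ht0, htlt, htp, -⟩ := thb p hp (by omega)
  have hp0R : (0 : ℝ) < p := by exact_mod_cast hp.pos
  have hpinv0 : (0 : ℝ) < (p : ℝ)⁻¹ := by positivity
  have hpinv1 : (p : ℝ)⁻¹ < 1 := inv_lt_one_of_one_lt₀ (by exact_mod_cast hp.one_lt)
  have t23 : th p ^ 3 < th p ^ 2 := pow_lt_pow_right_of_lt_one₀ ht0 htlt (by norm_num)
  have t20 : 0 < th p ^ 2 := by positivity
  have hρ2 : ρ < th p ^ 2 := hρ.trans t23
  have hy0 : 0 < ‖y‖ := lt_of_lt_of_le t20 hy
  have hn1 : ∀ n : ℕ, ‖(n : K)‖ ≤ 1 := fun n => norm_nat_le (p := p) n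
  -- the norm of `e' A T`
  have hET : ‖(e' : K) * A * T‖ ≤ ρ := by
    rw [norm_mul, norm_mul]
    have h1 : ‖(e' : K)‖ * ‖(A : K)‖ ≤ 1 := mul_le_one₀ (hn1 e') (norm_nonneg _) (hn1 A)
    calc ‖(e' : K)‖ * ‖(A : K)‖ * ‖T‖ ≤ 1 * ρ :=
          mul_le_mul h1 H3 (norm_nonneg _) zero_le_one
      _ = ρ := one_mul _
  have hBlog : ¬ p ∣ B → ‖Log (1 + y)‖ ≤ ρ := by
    intro h
    have hB1 : ‖(B : K)‖ = 1 := norm_nat_eq_one hp hE h
    rw [hB1, mul_one] at H2
    have h2 : ‖(B : K) * Log (1 + y)‖ ≤ ρ := by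
      have e : (B : K) * Log (1 + y) = ((B : K) * Log (1 + y) - e' * A * T) + e' * A * T := by ring
      rw [e]
      exact add_le' H2 hET
    rwa [norm_mul, hB1, one_mul] at h2
  by_cases hc : ∀ h : ℕ, ‖y‖ ^ (p ^ h * (p - 1)) ≠ (p : ℝ)⁻¹
  · -- not critical
    obtain ⟨j, hj1, hj2, hj3, hj4⟩ := lgn p hp (by omega) K hE Log hL y hy0 hy1 hc
    by_cases hpB : p ∣ B
    · refine ⟨hpB, j, hj1, hj2, ?_⟩
      have hpA : ¬ p ∣ A := by
        intro h
        have := Nat.dvd_gcd h hpB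
        rw [hcop] at this
        exact hp.one_lt.ne' (Nat.dvd_one.1 this)
      have hA1 : ‖(A : K)‖ = 1 := norm_nat_eq_one hp hE hpA
      have he'1 : ‖(e' : K)‖ = 1 := norm_nat_eq_one hp hE (fun h => by
        have := Nat.le_of_dvd (by omega) h
        omega)
      have hnT : ‖(e' : K) * A * T‖ = ‖T‖ := by
        rw [norm_mul, norm_mul, he'1, hA1, one_mul, one_mul]
      have hB0 : 0 < ‖(B : K)‖ := by
        rw [norm_pos_iff]
        exact_mod_cast (by omega : B ≠ 0)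
      have h5 : ρ * ‖(B : K)‖ < ‖(B : K) * Log (1 + y)‖ := by
        rw [norm_mul, mul_comm]
        refine mul_lt_mul_of_pos_left ?_ hB0
        exact lt_of_lt_of_le hρ2 (hy.trans hj4)
      have h6 : ‖(e' : K) * A * T‖ = ‖(B : K) * Log (1 + y)‖ := by
        apply norm_eq_of_near
        rw [norm_sub_rev]
        exact lt_of_le_of_lt H2 h5
      rw [← hnT, h6, norm_mul, hj3]
    · exfalso
      have := hBlog hpB
      linarith
  · -- critical
    exfalso
    push Not at hc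
    obtain ⟨h, hh⟩ := hc
    obtain ⟨φ, hφ⟩ : ∃ φ : ℕ, φ = p ^ h * (p - 1) := ⟨_, rfl⟩
    have hh' := hh
    rw [← hφ] at hh
    have hAφ : A = (A - B) * φ := by
      have e1 : ((p : ℝ)⁻¹) ^ A = ((p : ℝ)⁻¹) ^ ((A - B) * φ) := by
        rw [pow_mul, ← hyA, ← pow_mul, mul_comm A φ, pow_mul, hh]
      exact pow_right_injective₀ hpinv0 hpinv1.ne e1
    have hdvd : A - B ∣ 1 := by
      rw [← hcop]
      have h1 : A - B ∣ A := ⟨φ, hAφ⟩
      have h2 : A - B ∣ B := by
        have := Nat.dvd_sub h1 (dvd_refl (A - B))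
        have e : A - (A - B) = B := by omega
        rwa [e] at this
      exact Nat.dvd_gcd h1 h2
    have hAB1 : A - B = 1 := Nat.dvd_one.1 hdvd
    rw [hAB1, one_mul] at hAφ
    have hpB : ¬ p ∣ B := by
      intro hd
      have hBe : B = φ - 1 := by omega
      rcases Nat.eq_zero_or_pos h with h0 | h0
      · subst h0
        rw [pow_zero, one_mul] at hφ
        have := Nat.le_of_dvd (by omega) hd
        omega
      · have h1 : p ∣ φ := by
          rw [hφ]
          exact Dvd.dvd.mul_right (dvd_pow_self p (by omega)) _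
        have h2 : p ∣ 1 := by
          have h3 : 1 = φ - B := by omega
          rw [h3]
          exact Nat.dvd_sub h1 hd
        exact hp.one_lt.ne' (Nat.dvd_one.1 h2)
    have h7 : ‖(p : K) ^ h * Log (1 + y)‖ ≤ ρ := by
      rw [norm_mul, norm_pow]
      have h8 := hBlog hpB
      have h9 : ‖(p : K)‖ ^ h ≤ 1 := pow_le_one₀ (norm_nonneg _) (hn1 p)
      calc ‖(p : K)‖ ^ h * ‖Log (1 + y)‖ ≤ 1 * ρ :=
            mul_le_mul h9 h8 (norm_nonneg _) zero_le_one
        _ = ρ := one_mul _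
    obtain ⟨ξ, d, hξ, hξd, hd1, hdρ⟩ := cri p hp (by omega) K hE Log hL y h ρ hy0 hy1 hh' hρ0 hρ h7
    have hyξ : ξ * (1 + d) - 1 = y := by rw [← hξd]; ring
    have hr1 : ‖r‖ ≤ 1 := by
      rcases hr with h0 | h0
      · rw [h0, norm_zero]; exact zero_le_one
      · exact h0.1
    have hg := gps p hp (by omega) K hE Log hL h ξ d r 0 (-1) 0 hξ hd1
      (lt_of_le_of_lt hdρ hρ) hr1 (by rw [norm_zero]; exact zero_le_one) (by
        rcases hr with h0 | h0
        · left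
          exact ⟨Or.inr (Or.inl h0), Or.inl rfl⟩
        · right
          have h1 := Pool.Agent.ZPK.H26.gtf_frob hp hE h0.1 h0.2
          have hm : max ‖((-1 : ℤ) : K)‖ ‖((0 : ℤ) : K)‖ = 1 := by
            simp
          rw [hm]
          refine ⟨?_, pow_le_one₀ hpinv0.le hpinv1.le⟩
          have e : ((-1 : ℤ) : K) * (r - r ^ p) ^ (p ^ h) + ((0 : ℤ) : K) * (0 - 0 ^ p) ^ (p ^ h) =
              -((r - r ^ p) ^ (p ^ h)) := by
            push_cast; ring
          rw [e, norm_neg, norm_pow, h1, one_pow])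
    rw [hyξ, ← hφ] at hg
    have e : ((φ : ℕ) : K) * Log y + ((-1 : ℤ) : K) * Log (1 + r * y) +
        ((0 : ℤ) : K) * Log (1 + 0 * y) = (A : K) * Log y - ((A : K) - B) * Log (1 + r * y) := by
      have h1 : (A : K) - B = 1 := by
        have h2 : A = B + 1 := by omega
        rw [h2]; push_cast; ring
      rw [h1, hAφ]; push_cast; ring
    rw [e] at hg
    linarith

end

end Pool.Agent.ZPK.H92
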